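import Pool.Agent.Q237.PI.Chart
import Pool.Agent.H789R2.GP.Defs

/-!
# Radial families in small stable plaques of hyperbolic systems
-/

set_option autoImplicit false
set_option linter.unusedSectionVars false

open Filter Topology Set Metric unitInterval

namespace Pool.Agent.Q237.PI

open Pool.Agent.H721R2 Pool.Agent.H779R2.An Pool.Agent.H789R2.AN Pool.Agent.H789R2.GP

section
universe u v
variable {X : Type u} {E : Type v} [MetricSpace X] [CompactSpace X] [NormedAddCommGroup E]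
  [NormedSpace ℝ E]

/-- Backward expansion of small stable displacements is at most `4 * Ls`. -/
theorem expand (S : HypSys X E) : ∃ r₀ > 0, ∀ x y, S.SRel r₀ x y →
    dist (S.g.symm x) (S.g.symm y) ≤ 4 * S.Ls * dist x y := by
  have hK := S.one_le_K
  have hL := S.one_le_Ls
  have hb := S.b_le
  have hb0 := S.b_nonneg
  set K := S.K with hKdef
  have hK0 : 0 < K := by linarith
  set η : ℝ := 1 / (16 * K) with hη
  have hη0 : 0 < η := by positivity
  have hη16 : η ≤ 1 / 16 := by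
    rw [hη]
    apply one_div_le_one_div_of_le (by norm_num)
    linarith
  have hKη : K * η = 1 / 16 := by rw [hη]; field_simp
  obtain ⟨εc, hεc, cs⟩ := S.coneS' η hη0 (by linarith)
  obtain ⟨r1, hr1, A1'⟩ := S.A1' η hη0
  refine ⟨min εc (r1 / 2), by positivity, fun x y hxy => ?_⟩
  have hd0 : 0 ≤ dist x y := dist_nonneg
  obtain ⟨s, hs, h1⟩ := cs x y (hxy.mono (min_le_left _ _))
  have hdl : dist x y < r1 := by
    have h2 := hxy.dist_le
    have h3 := min_le_right εc (r1 / 2)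
    linarith
  obtain ⟨s', hs', u', hu', h2, h3⟩ := A1' x y hdl
  have hd : dist x y = ‖S.e y - S.e x‖ := by rw [dist_comm, S.isom]
  have hsum : ‖(s' - s) + u'‖ ≤ 3 * η * dist x y := by
    have e1 : (s' - s) + u' = (S.e y - S.e x - s) - (S.e y - S.e x - (s' + u')) := by abel
    rw [e1]
    have h4 := norm_sub_le (S.e y - S.e x - s) (S.e y - S.e x - (s' + u'))
    linarith
  obtain ⟨h5, h6⟩ := S.angle x (s' - s) (Submodule.sub_mem _ hs' hs) u' hu'
  have h7 : K * ‖(s' - s) + u'‖ ≤ 3 / 16 * dist x y := by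
    calc K * ‖(s' - s) + u'‖ ≤ K * (3 * η * dist x y) := mul_le_mul_of_nonneg_left hsum hK0.le
      _ = 3 * (K * η) * dist x y := by ring
      _ = 3 / 16 * dist x y := by rw [hKη]; ring
  have hηd : η * dist x y ≤ 1 / 16 * dist x y := mul_le_mul_of_nonneg_right hη16 hd0
  have hs1 : ‖s‖ ≤ (1 + 1 / 8) * dist x y := by
    have h8 := norm_sub_le (S.e y - S.e x) (S.e y - S.e x - s)
    rw [sub_sub_cancel, ← hd] at h8
    linarith
  have hs'1 : ‖s'‖ ≤ 2 * dist x y := by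
    have h8 := norm_add_le (s' - s) s
    rw [sub_add_cancel] at h8
    linarith
  have hu'1 : ‖u'‖ ≤ 1 * dist x y := by linarith
  have hD : ‖S.D' x (s' + u')‖ ≤ 3 * S.Ls * dist x y := by
    rw [map_add]
    have h8 := norm_add_le (S.D' x s') (S.D' x u')
    have h9 := S.boundS x s' hs'
    have h10 := S.contrU x u' hu'
    have h11 : S.Ls * ‖s'‖ ≤ S.Ls * (2 * dist x y) := mul_le_mul_of_nonneg_left hs'1 (by linarith)
    have h12 : S.b * ‖u'‖ ≤ 1 * (1 * dist x y) :=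
      mul_le_mul (by linarith) hu'1 (norm_nonneg _) (by norm_num)
    have h13 : 1 * dist x y ≤ S.Ls * dist x y := mul_le_mul_of_nonneg_right hL hd0
    linarith
  have hd' : dist (S.g.symm x) (S.g.symm y) = ‖S.e (S.g.symm y) - S.e (S.g.symm x)‖ := by
    rw [dist_comm, S.isom]
  rw [hd']
  have h8 := norm_add_le (S.e (S.g.symm y) - S.e (S.g.symm x) - S.D' x (s' + u'))
    (S.D' x (s' + u'))
  rw [sub_add_cancel] at h8
  have h13 : 1 * dist x y ≤ S.Ls * dist x y := mul_le_mul_of_nonneg_right hL hd0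
  linarith

/-- Backward iteration of stably related points. -/
theorem back (S : HypSys X E) {r₀ : ℝ} (hr : ∀ x y, S.SRel r₀ x y →
    dist (S.g.symm x) (S.g.symm y) ≤ 4 * S.Ls * dist x y) {m : ℕ} (hm : 4 * S.Ls ≤ m)
    {B D : ℝ} (hB : B ≤ r₀) (hD : 0 ≤ D) (k : ℕ) (hk : (m : ℝ) ^ k * D ≤ B) {z z' : X}
    (h1 : S.SRel B z z') (h2 : dist z z' ≤ D) :
    ∀ j ≤ k, S.SRel B (S.g.symm^[j] z) (S.g.symm^[j] z') ∧
      dist (S.g.symm^[j] z) (S.g.symm^[j] z') ≤ (m : ℝ) ^ j * D := by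
  have hL := S.one_le_Ls
  have hm1 : (1 : ℝ) ≤ m := by linarith
  intro j
  induction j with
  | zero => intro _; simpa using ⟨h1, h2⟩
  | succ j ih =>
    intro hj
    obtain ⟨h3, h4⟩ := ih (by omega)
    have h5 := hr _ _ (h3.mono hB)
    have h6 : dist (S.g.symm^[j + 1] z) (S.g.symm^[j + 1] z') ≤ (m : ℝ) ^ (j + 1) * D := by
      rw [Function.iterate_succ_apply', Function.iterate_succ_apply']
      calc dist (S.g.symm (S.g.symm^[j] z)) (S.g.symm (S.g.symm^[j] z'))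
          ≤ 4 * S.Ls * dist (S.g.symm^[j] z) (S.g.symm^[j] z') := h5
        _ ≤ m * ((m : ℝ) ^ j * D) := mul_le_mul hm h4 dist_nonneg (by linarith)
        _ = (m : ℝ) ^ (j + 1) * D := by ring
    refine ⟨?_, h6⟩
    intro n
    match n with
    | 0 =>
      have h7 : (m : ℝ) ^ (j + 1) ≤ (m : ℝ) ^ k := pow_le_pow_right₀ hm1 hj
      have h8 : (m : ℝ) ^ (j + 1) * D ≤ (m : ℝ) ^ k * D := mul_le_mul_of_nonneg_right h7 hD
      exact h6.trans (h8.trans hk)
    | n + 1 =>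
      rw [Function.iterate_succ_apply' S.g.symm, Function.iterate_succ_apply' S.g.symm,
        Function.iterate_succ_apply, Function.iterate_succ_apply, Homeomorph.apply_symm_apply,
        Homeomorph.apply_symm_apply]
      exact h3 n

/-- The chart of the stable plaque. -/
theorem chart (S : HypSys X E) {M : ℝ} (Q : Prj S M) : ∃ ρ₂ > 0, ∀ ε > 0, ε ≤ ρ₂ →
    ∃ ρ₁ > 0, ∃ z : X → E → X,
      (∀ a, ∀ v ∈ S.Vs a, ‖v‖ ≤ ρ₁ → S.SRel ε a (z a v) ∧
        Q.P a (S.e (z a v) - S.e a) = v) ∧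
      (∀ a y y', S.SRel ρ₂ a y → S.SRel ρ₂ a y' → dist y y' ≤ 4 / 3 *
        ‖Q.P a (S.e y - S.e a) - Q.P a (S.e y' - S.e a)‖) := by
  classical
  obtain ⟨ρ₂, hρ₂, hb⟩ := c6_bilip S Q
  refine ⟨ρ₂, hρ₂, fun ε hε _ => ?_⟩
  obtain ⟨ρ₁, hρ₁, hs⟩ := c6_surj S Q ε hε
  refine ⟨ρ₁, hρ₁, fun a v => if h : v ∈ S.Vs a ∧ ‖v‖ ≤ ρ₁ then (hs a v h.1 h.2).choose else a,
    ?_, ?_⟩
  · intro a v hv hv1
    have h1 : (if h : v ∈ S.Vs a ∧ ‖v‖ ≤ ρ₁ then (hs a v h.1 h.2).choose else a) =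
        (hs a v hv hv1).choose := dif_pos ⟨hv, hv1⟩
    show S.SRel ε a (if h : v ∈ S.Vs a ∧ ‖v‖ ≤ ρ₁ then (hs a v h.1 h.2).choose else a) ∧
      Q.P a (S.e (if h : v ∈ S.Vs a ∧ ‖v‖ ≤ ρ₁ then (hs a v h.1 h.2).choose else a) - S.e a) = v
    rw [h1]
    exact (hs a v hv hv1).choose_spec
  · intro a y y' h1 h2
    have h3 := (hb a y y' h1 h2).1
    have e1 : S.e y' - S.e y = (S.e y' - S.e a) - (S.e y - S.e a) := by abel
    rw [e1, map_sub, norm_sub_rev] at h3
    linarith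

/-- **Radial families.** -/
theorem radial (S : HypSys X E) {M : ℝ} (Q : Prj S M) (m : ℕ) (hm : 4 * S.Ls ≤ m) (δ : ℝ)
    (hδ : 0 < δ) : ∃ δ' > 0, ∀ (a : X) (υ : C(I, SM S.g)), (∀ t, SR S.g δ' a (υ t).val) →
    ∃ H : C(I × I, SM S.g), (∀ t, (H (0, t)).val = a) ∧ (∀ t, (H (1, t)).val = (υ t).val) ∧
      (∀ r t, (υ t).val = a → (H (r, t)).val = a) ∧
      ∀ (t : I) (k : ℕ) (r r' : I), |(r : ℝ) - r'| ≤ 1 / (m : ℝ) ^ k →
        SR S.g δ (S.g.symm^[k] (H (r, t)).val) (S.g.symm^[k] (H (r', t)).val) := by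
  have hL := S.one_le_Ls
  have hm1 : (1 : ℝ) ≤ m := by linarith
  have hM := Q.one_le
  have hM0 : 0 < M := by linarith
  obtain ⟨ε₀, geo⟩ := exists_geo S
  obtain ⟨r₀, hr₀, hexp⟩ := expand S
  obtain ⟨ρ₂, hρ₂, hch⟩ := chart S Q
  set B := min r₀ δ with hB
  have hB0 : 0 < B := lt_min hr₀ hδ
  have hε₀ := geo.pos
  set ε := min (min (B / 2) ρ₂) (ε₀ / 2) with hε
  have hε0 : 0 < ε := lt_min (lt_min (by positivity) hρ₂) (by positivity)
  have hεB : ε ≤ B / 2 := (min_le_left _ _).trans (min_le_left _ _)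
  have hερ : ε ≤ ρ₂ := (min_le_left _ _).trans (min_le_right _ _)
  have hεε : ε ≤ ε₀ / 2 := min_le_right _ _
  obtain ⟨ρ₁, hρ₁, z, hz, huniq⟩ := hch ε hε0 hερ
  refine ⟨min (min ρ₂ (ρ₁ / M)) (B / (2 * M)), by positivity, fun a υ hυ => ?_⟩
  -- the coordinates
  let w : I → E := fun t => Q.P a (S.e (υ t).val - S.e a)
  have hwm : ∀ t, w t ∈ S.Vs a := fun t => Q.mem a _
  have hdist : ∀ t, dist a (υ t).val ≤ min (min ρ₂ (ρ₁ / M)) (B / (2 * M)) := fun t => hυ t 0
  have hwn : ∀ t, ‖w t‖ ≤ M * dist a (υ t).val := by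
    intro t
    have h1 := Q.le a (S.e (υ t).val - S.e a)
    have h2 : dist a (υ t).val = ‖S.e (υ t).val - S.e a‖ := by rw [dist_comm, S.isom]
    rw [h2]
    exact h1
  have hw1 : ∀ t, ‖w t‖ ≤ ρ₁ := by
    intro t
    have h1 : dist a (υ t).val ≤ ρ₁ / M :=
      (hdist t).trans ((min_le_left _ _).trans (min_le_right _ _))
    rw [le_div_iff₀ hM0] at h1
    linarith [hwn t]
  have hw2 : ∀ t, ‖w t‖ ≤ B / 2 := by
    intro t
    have h1 : dist a (υ t).val ≤ B / (2 * M) := (hdist t).trans (min_le_right _ _)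
    have h2 : M * dist a (υ t).val ≤ M * (B / (2 * M)) := mul_le_mul_of_nonneg_left h1 hM0.le
    have h3 : M * (B / (2 * M)) = B / 2 := by field_simp
    linarith [hwn t]
  have hval : Continuous (fun q : SM S.g => q.val) := by
    have h1 : LipschitzWith 1 (fun q : SM S.g => q.val) := by
      apply LipschitzWith.of_dist_le_mul
      intro q q'
      have h2 := (SM.dist_le q q' dist_nonneg).1 le_rfl 0
      simpa using h2
    exact h1.continuous
  have hec : Continuous S.e := by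
    have h1 : Isometry S.e := Isometry.of_dist_eq fun x y => by
      rw [dist_eq_norm, ← S.isom]
    exact h1.continuous
  have hwc : Continuous w :=
    (Q.P a).continuous.comp ((hec.comp (hval.comp υ.continuous)).sub continuous_const)
  -- rescaled coordinates
  have hrw : ∀ (r : I) (t : I), ((r : ℝ) • w t) ∈ S.Vs a ∧ ‖(r : ℝ) • w t‖ ≤ ρ₁ := by
    intro r t
    refine ⟨Submodule.smul_mem _ _ (hwm t), ?_⟩
    rw [norm_smul, Real.norm_of_nonneg r.2.1]
    have h1 : (r : ℝ) * ‖w t‖ ≤ 1 * ‖w t‖ := mul_le_mul_of_nonneg_right r.2.2 (norm_nonneg _)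
    linarith [hw1 t]
  let h : I × I → X := fun p => z a ((p.1 : ℝ) • w p.2)
  have hh : ∀ p, S.SRel ε a (h p) ∧ Q.P a (S.e (h p) - S.e a) = (p.1 : ℝ) • w p.2 := by
    intro p
    exact hz a _ (hrw p.1 p.2).1 (hrw p.1 p.2).2
  have hhd : ∀ p q, dist (h p) (h q) ≤ 4 / 3 * ‖(p.1 : ℝ) • w p.2 - (q.1 : ℝ) • w q.2‖ := by
    intro p q
    have h1 := huniq a (h p) (h q) ((hh p).1.mono hερ) ((hh q).1.mono hερ)
    rwa [(hh p).2, (hh q).2] at h1
  have hhS : ∀ p q, S.SRel (2 * ε) (h p) (h q) := by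
    intro p q
    refine ((hh p).1.symm.trans (hh q).1).mono ?_
    linarith
  have hhS' : ∀ p q, S.SRel (dist (h p) (h q)) (h p) (h q) := by
    intro p q
    exact geo.SRel_dist ((hhS p q).mono (by linarith))
  have hcont : Continuous (fun p : I × I => (⟨h p⟩ : SM S.g)) := by
    rw [continuous_iff_continuousAt]
    intro p
    rw [ContinuousAt, tendsto_iff_dist_tendsto_zero]
    have h1 : Continuous (fun q : I × I => 4 / 3 * ‖(q.1 : ℝ) • w q.2 - (p.1 : ℝ) • w p.2‖) := by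
      have h2 : Continuous (fun q : I × I => (q.1 : ℝ) • w q.2) :=
        (continuous_subtype_val.comp continuous_fst).smul (hwc.comp continuous_snd)
      exact continuous_const.mul (h2.sub continuous_const).norm
    have h2 := h1.tendsto p
    simp only [sub_self, norm_zero, mul_zero] at h2
    refine squeeze_zero (fun _ => dist_nonneg) (fun q => ?_) h2
    refine (?_ : dist (⟨h q⟩ : SM S.g) ⟨h p⟩ ≤ dist (h q) (h p)).trans (hhd q p)
    rw [SM.dist_le _ _ dist_nonneg]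
    exact hhS' q p
  have haz : ∀ p : I × I, (p.1 : ℝ) • w p.2 = 0 → h p = a := by
    intro p hp
    have h0 : S.SRel ρ₂ a a := fun k => by rw [dist_self]; exact hρ₂.le
    have h1 := huniq a (h p) a ((hh p).1.mono hερ) h0
    rw [(hh p).2, hp, sub_self, map_zero, sub_zero, norm_zero, mul_zero] at h1
    exact dist_le_zero.1 h1
  refine ⟨⟨fun p => ⟨h p⟩, hcont⟩, ?_, ?_, ?_, ?_⟩
  · intro t
    apply haz
    show (0 : ℝ) • w t = 0
    rw [zero_smul]
  · intro t
    show h (1, t) = (υ t).val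
    have h2 : S.SRel ρ₂ a (υ t).val := fun k => (hυ t k).trans
      ((min_le_left _ _).trans (min_le_left _ _))
    have h1 := huniq a (h (1, t)) (υ t).val ((hh (1, t)).1.mono hερ) h2
    have h3 : Q.P a (S.e (h (1, t)) - S.e a) = Q.P a (S.e (υ t).val - S.e a) := by
      rw [(hh (1, t)).2]
      show (1 : ℝ) • w t = w t
      rw [one_smul]
    rw [h3, sub_self, norm_zero, mul_zero] at h1
    exact dist_le_zero.1 h1
  · intro r t ht
    apply haz
    show (r : ℝ) • w t = 0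
    have h1 : w t = 0 := by
      show Q.P a (S.e (υ t).val - S.e a) = 0
      rw [ht, sub_self, map_zero]
    rw [h1, smul_zero]
  · intro t k r r' hrr
    have hmk : (0 : ℝ) < (m : ℝ) ^ k := by positivity
    have h1 : dist (h (r, t)) (h (r', t)) ≤ B / (m : ℝ) ^ k := by
      have h2 := hhd (r, t) (r', t)
      have h3 : ((r : ℝ) • w t) - ((r' : ℝ) • w t) = ((r : ℝ) - r') • w t := by
        rw [sub_smul]
      have h4 : ‖((r : ℝ) • w t) - ((r' : ℝ) • w t)‖ ≤ 1 / (m : ℝ) ^ k * (B / 2) := by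
        rw [h3, norm_smul, Real.norm_eq_abs]
        exact mul_le_mul hrr (hw2 t) (norm_nonneg _) (by positivity)
      have h5 : 4 / 3 * (1 / (m : ℝ) ^ k * (B / 2)) ≤ B / (m : ℝ) ^ k := by
        have h6 : 4 / 3 * (1 / (m : ℝ) ^ k * (B / 2)) = 2 / 3 * (B / (m : ℝ) ^ k) := by ring
        have h7 : 0 ≤ B / (m : ℝ) ^ k := by positivity
        linarith
      have h6 : 4 / 3 * ‖((r : ℝ) • w t) - ((r' : ℝ) • w t)‖ ≤
          4 / 3 * (1 / (m : ℝ) ^ k * (B / 2)) := mul_le_mul_of_nonneg_left h4 (by norm_num)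
      exact h2.trans (h6.trans h5)
    have h2 : (m : ℝ) ^ k * (B / (m : ℝ) ^ k) ≤ B := by
      rw [mul_div_cancel₀ _ hmk.ne']
    have h3 := (back S hexp hm (min_le_left r₀ δ) (by positivity) k h2
      ((hhS (r, t) (r', t)).mono (by linarith)) h1 k le_rfl).1
    exact h3.mono (min_le_right r₀ δ)

end

end Pool.Agent.Q237.PI
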