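import Pool.Agent.Q192.PI.Stm
import Pool.Agent.Q237.PI.Core

set_option autoImplicit false

open Filter Topology Set Metric unitInterval

namespace Pool.Agent.Q237.PI

open Pool.Agent.Q192.PI Pool.Agent.H721R2 Pool.Agent.H789R2.AN Pool.Agent.H789R2.GP

universe u v

/-- Equal subdivision of the interval. -/
theorem pieces_of {X : Type u} [MetricSpace X] (g : X ≃ₜ X) (δ : ℝ) (n : ℕ) (hn : 0 < n)
    (p : I → X) (h : ∀ r r' : I, |(r : ℝ) - r'| ≤ 1 / (n : ℝ) → SR g δ (p r) (p r')) :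
    Pieces g δ n p := by
  have hn0 : (0 : ℝ) < n := by exact_mod_cast hn
  refine ⟨fun i => ⟨min 1 ((i : ℝ) / n), le_min zero_le_one (by positivity), min_le_left _ _⟩,
    ?_, ?_, ?_, ?_⟩
  · intro i j hij
    apply Subtype.coe_le_coe.1
    show min 1 ((i : ℝ) / n) ≤ min 1 ((j : ℝ) / n)
    apply min_le_min_left
    apply div_le_div_of_nonneg_right _ hn0.le
    exact_mod_cast hij
  · apply Subtype.ext
    show min 1 (((0 : ℕ) : ℝ) / n) = 0
    simp
  · apply Subtype.ext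
    show min 1 ((n : ℝ) / n) = 1
    rw [div_self hn0.ne', min_self]
  · intro i hi t t' h1 h2 h3 h4
    have h1' : min 1 ((i : ℝ) / n) ≤ (t : ℝ) := h1
    have h2' : (t : ℝ) ≤ min 1 (((i + 1 : ℕ) : ℝ) / n) := h2
    have h3' : min 1 ((i : ℝ) / n) ≤ (t' : ℝ) := h3
    have h4' : (t' : ℝ) ≤ min 1 (((i + 1 : ℕ) : ℝ) / n) := h4
    have h5 : (i : ℝ) / n ≤ 1 := by
      rw [div_le_one hn0]
      exact_mod_cast hi.le
    rw [min_eq_right h5] at h1' h3'
    have h6 := h2'.trans (min_le_right _ _)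
    have h7 := h4'.trans (min_le_right _ _)
    have h8 : ((i + 1 : ℕ) : ℝ) / n = (i : ℝ) / n + 1 / n := by
      push_cast
      ring
    rw [h8] at h6 h7
    apply h
    rw [abs_le]
    constructor <;> linarith

/-- **SA5.** -/
theorem sA5 : SA5.{u, v} := by
  intro X E _ _ _ _ _ S d ms _ hms δ hδ
  obtain ⟨M, ⟨Q⟩⟩ := exists_prj S
  obtain ⟨δ', hδ', h⟩ := radial S Q ms hms δ hδ
  have hL := S.one_le_Ls
  have hms0 : 0 < ms := by
    have : (0 : ℝ) < ms := by linarith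
    exact_mod_cast this
  refine ⟨δ', hδ', fun a υ hυ => ?_⟩
  obtain ⟨H, h1, h2, h3, h4⟩ := h a υ hυ
  refine ⟨H, h1, h2, h3, fun t k => ?_⟩
  apply pieces_of _ _ _ (by positivity)
  intro r r' hrr
  apply h4 t k r r'
  simpa using hrr

end Pool.Agent.Q237.PI
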