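import Pool.Agent.H779R2.An.Basic

/-!
# Charts of stable plaques of hyperbolic systems in general normed spaces

A variant of the chart lemmas of H779R2/An/CChart for normed spaces which are not inner product
spaces, with projections of norm at most `M`.
-/

set_option autoImplicit false
set_option linter.unusedSectionVars false

namespace Pool.Agent.Q237.PI

open Pool.Agent.H721R2 Pool.Agent.H779R2.An Filter Topology

section
universe u v
variable {X : Type u} {E : Type v} [MetricSpace X] [CompactSpace X] [NormedAddCommGroup E]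
  [NormedSpace ℝ E]

theorem c6_approx (S : HypSys X E) (η : ℝ) (hη : 0 < η) (ε : ℝ)
    (hε : 0 < ε) : ∃ ρ > 0, ∀ x, ∀ v ∈ S.Vu x, ‖v‖ ≤ ρ →
      ∃ z, S.URel ε x z ∧ dist x z ≤ 18 * S.K * ‖v‖ ∧ ‖S.e z - S.e x - v‖ ≤ η * ‖v‖ := by
  have hK := S.one_le_K
  set K := S.K with hKdef
  have hK0 : 0 < K := by linarith
  set η₁ := min (1 / 2) (η / (180 * K ^ 2)) with hη₁
  have hη₁0 : 0 < η₁ := lt_min (by norm_num) (by positivity)
  have hη₁1 : η₁ ≤ 1 / 2 := min_le_left _ _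
  have hη₁2 : 180 * K ^ 2 * η₁ ≤ η := by
    have : η₁ ≤ η / (180 * K ^ 2) := min_le_right _ _
    rw [le_div_iff₀ (by positivity)] at this
    linarith
  obtain ⟨r2, hr2, A2⟩ := S.A2 η₁ hη₁0
  obtain ⟨r3, hr3, A3⟩ := S.A3 η₁ hη₁0
  obtain ⟨εl, hεl, lp⟩ := S.local_product
  obtain ⟨εc, hεc, cs⟩ := S.coneS' η₁ hη₁0 (by linarith)
  obtain ⟨εu, hεu, cu⟩ := S.symm.coneS' η₁ hη₁0 (by linarith)
  set R0 := min (min r2 r3) (min (min εl εc) (min εu ε)) with hR0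
  have hR0p : 0 < R0 := by
    simp only [hR0, lt_min_iff]
    exact ⟨⟨hr2, hr3⟩, ⟨hεl, hεc⟩, hεu, hε⟩
  have hR2 : R0 ≤ r2 := (min_le_left _ _).trans (min_le_left _ _)
  have hR3 : R0 ≤ r3 := (min_le_left _ _).trans (min_le_right _ _)
  have hRl : R0 ≤ εl := (min_le_right _ _).trans ((min_le_left _ _).trans (min_le_left _ _))
  have hRc : R0 ≤ εc := (min_le_right _ _).trans ((min_le_left _ _).trans (min_le_right _ _))
  have hRu : R0 ≤ εu := (min_le_right _ _).trans ((min_le_right _ _).trans (min_le_left _ _))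
  have hRε : R0 ≤ ε := (min_le_right _ _).trans ((min_le_right _ _).trans (min_le_right _ _))
  refine ⟨R0 / (36 * K), by positivity, fun x v hv hvρ => ?_⟩
  have hnv : 0 ≤ ‖v‖ := norm_nonneg _
  set σ := 18 * K * ‖v‖ with hσ
  have hσ0 : 0 ≤ σ := by positivity
  have hσR : σ ≤ R0 / 2 := by
    rw [le_div_iff₀ (by positivity)] at hvρ
    rw [hσ]; linarith
  have hKv : ‖v‖ ≤ K * ‖v‖ := by nlinarith
  have h2v : 2 * ‖v‖ ≤ σ := by rw [hσ]; nlinarith
  obtain ⟨y0, hy0⟩ := A2 x 0 (Submodule.zero_mem _) v hv (by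
    rw [zero_add]; linarith)
  rw [zero_add] at hy0
  have hd : dist y0 x ≤ 2 * ‖v‖ := by
    rw [S.isom]
    have h1 := norm_add_le (S.e y0 - S.e x - v) v
    rw [sub_add_cancel] at h1
    have h2 : η₁ * ‖v‖ ≤ 1 / 2 * ‖v‖ := mul_le_mul_of_nonneg_right hη₁1 hnv
    linarith
  obtain ⟨z, hz1, hz2⟩ := lp y0 x (by linarith)
  have hσd : 9 * S.K * dist y0 x ≤ σ := by
    rw [hσ]
    have : 9 * K * dist y0 x ≤ 9 * K * (2 * ‖v‖) :=
      mul_le_mul_of_nonneg_left hd (by positivity)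
    linarith
  have hz1' : S.SRel σ y0 z := hz1.mono hσd
  have hz2' : S.URel σ x z := (hz2.mono hσd).symm
  obtain ⟨s0, hs0, hs01⟩ := cs _ _ (hz1'.mono (by linarith))
  obtain ⟨u0, hu0, hu01⟩ := cu _ _ ((S.SRel_symm_sys _ _ _).mpr (hz2'.mono (by linarith)))
  change u0 ∈ S.Vu x at hu0
  change ‖S.e z - S.e x - u0‖ ≤ 2 * η₁ * dist x z at hu01
  have hd1 : dist y0 z ≤ σ := hz1'.dist_le
  have hd2 : dist x z ≤ σ := hz2'.dist_le
  have hs02 : ‖S.e z - S.e y0 - s0‖ ≤ 2 * (η₁ * σ) := by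
    refine hs01.trans ?_
    have : 2 * η₁ * dist y0 z ≤ 2 * η₁ * σ := mul_le_mul_of_nonneg_left hd1 (by positivity)
    linarith
  have hu02 : ‖S.e z - S.e x - u0‖ ≤ 2 * (η₁ * σ) := by
    refine hu01.trans ?_
    have : 2 * η₁ * dist x z ≤ 2 * η₁ * σ := mul_le_mul_of_nonneg_left hd2 (by positivity)
    linarith
  have hns0 : ‖s0‖ ≤ 2 * σ := by
    have e0 : dist y0 z = ‖S.e z - S.e y0‖ := by rw [dist_comm, S.isom]
    have h1 := norm_sub_le (S.e z - S.e y0) (S.e z - S.e y0 - s0)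
    rw [sub_sub_cancel, ← e0] at h1
    have : η₁ * σ ≤ 1 / 2 * σ := mul_le_mul_of_nonneg_right hη₁1 hσ0
    linarith
  obtain ⟨s1, hs1, hs11⟩ := A3 y0 x (by linarith) s0 hs0
  have hs12 : ‖s0 - s1‖ ≤ 2 * (η₁ * σ) := by
    refine hs11.trans ?_
    have : η₁ * ‖s0‖ ≤ η₁ * (2 * σ) := mul_le_mul_of_nonneg_left hns0 hη₁0.le
    linarith
  have hsum : ‖(-s1) + (u0 - v)‖ ≤ 7 * (η₁ * σ) := by
    have e1 : (-s1) + (u0 - v) = (S.e z - S.e y0 - s0) + (S.e y0 - S.e x - v)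
        - (S.e z - S.e x - u0) + (s0 - s1) := by abel
    rw [e1]
    have h1 := norm_add_le ((S.e z - S.e y0 - s0) + (S.e y0 - S.e x - v)
        - (S.e z - S.e x - u0)) (s0 - s1)
    have h2 := norm_sub_le ((S.e z - S.e y0 - s0) + (S.e y0 - S.e x - v))
        (S.e z - S.e x - u0)
    have h3 := norm_add_le (S.e z - S.e y0 - s0) (S.e y0 - S.e x - v)
    have h4 : η₁ * ‖v‖ ≤ η₁ * σ := mul_le_mul_of_nonneg_left (by linarith) hη₁0.le
    linarith
  have hang := (S.angle x _ (Submodule.neg_mem _ hs1) _ (Submodule.sub_mem _ hu0 hv)).2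
  have huv : ‖u0 - v‖ ≤ K * (7 * (η₁ * σ)) :=
    hang.trans (mul_le_mul_of_nonneg_left hsum hK0.le)
  refine ⟨z, hz2'.mono (by linarith), hd2, ?_⟩
  have e1 : S.e z - S.e x - v = (S.e z - S.e x - u0) + (u0 - v) := by
    abel
  rw [e1]
  have h1 := norm_add_le (S.e z - S.e x - u0) (u0 - v)
  have h3 : η₁ * σ ≤ K * (η₁ * σ) := by
    have : 0 ≤ η₁ * σ := by positivity
    nlinarith
  have h4 : 180 * K ^ 2 * η₁ * ‖v‖ ≤ η * ‖v‖ := mul_le_mul_of_nonneg_right hη₁2 hnv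
  have h5 : 180 * K ^ 2 * η₁ * ‖v‖ = 10 * (K * (η₁ * σ)) := by rw [hσ]; ring
  have h6 : 0 ≤ K * (η₁ * σ) := by positivity
  linarith

/-- Approximation by points of the stable plaque. -/
theorem c6_approxS (S : HypSys X E) (η : ℝ) (hη : 0 < η) (ε : ℝ)
    (hε : 0 < ε) : ∃ ρ > 0, ∀ x, ∀ v ∈ S.Vs x, ‖v‖ ≤ ρ →
      ∃ z, S.SRel ε x z ∧ dist x z ≤ 18 * S.K * ‖v‖ ∧ ‖S.e z - S.e x - v‖ ≤ η * ‖v‖ :=
  c6_approx S.symm η hη ε hε

/-- Differences of points of a small stable plaque of `x` are almost in `Vs x`. -/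
theorem c6_almost (S : HypSys X E) (η : ℝ) (hη : 0 < η) (hη1 : η ≤ 1) : ∃ ρ > 0,
    ∀ x y y', S.SRel ρ x y → S.SRel ρ x y' →
      ∃ s ∈ S.Vs x, ‖S.e y' - S.e y - s‖ ≤ η * dist y y' := by
  obtain ⟨r3, hr3, A3⟩ := S.A3 (η / 8) (by positivity)
  obtain ⟨εc, hεc, cs⟩ := S.coneS' (η / 8) (by positivity) (by linarith)
  refine ⟨min (r3 / 2) (εc / 2), by positivity, fun x y y' h h' => ?_⟩
  have h1 : S.SRel εc y y' := by
    refine (h.symm.trans h').mono ?_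
    have := min_le_right (r3 / 2) (εc / 2)
    linarith
  obtain ⟨s, hs, hs1⟩ := cs y y' h1
  have h2 : dist y x < r3 := by
    have h3 := h.dist_le
    rw [dist_comm] at h3
    have := min_le_left (r3 / 2) (εc / 2)
    linarith
  obtain ⟨s', hs', hs2⟩ := A3 y x h2 s hs
  refine ⟨s', hs', ?_⟩
  have hd : dist y y' = ‖S.e y' - S.e y‖ := by rw [dist_comm, S.isom]
  have hd0 : 0 ≤ dist y y' := dist_nonneg
  have h3 : ‖s‖ ≤ 2 * dist y y' := by
    have h4 := norm_sub_le (S.e y' - S.e y) (S.e y' - S.e y - s)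
    rw [sub_sub_cancel, ← hd] at h4
    have h5 : 2 * (η / 8) * dist y y' ≤ 1 * dist y y' :=
      mul_le_mul_of_nonneg_right (by linarith) hd0
    linarith
  have e1 : S.e y' - S.e y - s' = (S.e y' - S.e y - s) + (s - s') := by abel
  rw [e1]
  have h4 := norm_add_le (S.e y' - S.e y - s) (s - s')
  have h5 : η / 8 * ‖s‖ ≤ η / 8 * (2 * dist y y') := mul_le_mul_of_nonneg_left h3 (by positivity)
  have h6 : 0 ≤ η * dist y y' := by positivity
  linarith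

/-- A family of projections to the stable spaces with norm at most `M`. -/
structure Prj (S : HypSys X E) (M : ℝ) where
  one_le : 1 ≤ M
  P : X → E →L[ℝ] E
  le : ∀ x w, ‖P x w‖ ≤ M * ‖w‖
  mem : ∀ x w, P x w ∈ S.Vs x
  eq : ∀ x, ∀ w ∈ S.Vs x, P x w = w

theorem exists_prj [FiniteDimensional ℝ E] (S : HypSys X E) : ∃ M, Nonempty (Prj S M) := by
  let T : E ≃L[ℝ] EuclideanSpace ℝ (Fin (Module.finrank ℝ E)) := toEuclidean
  let Tc : E →L[ℝ] EuclideanSpace ℝ (Fin (Module.finrank ℝ E)) := T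
  let Ti : EuclideanSpace ℝ (Fin (Module.finrank ℝ E)) →L[ℝ] E := T.symm
  let V : X → Submodule ℝ (EuclideanSpace ℝ (Fin (Module.finrank ℝ E))) := fun x =>
    (S.Vs x).map (T : E →ₗ[ℝ] EuclideanSpace ℝ (Fin (Module.finrank ℝ E)))
  refine ⟨max 1 (‖Ti‖ * ‖Tc‖), ⟨⟨le_max_left _ _,
    fun x => Ti.comp ((V x).starProjection.comp Tc), ?_, ?_, ?_⟩⟩⟩
  · intro x w
    have h1 : ‖Ti ((V x).starProjection (Tc w))‖ ≤ ‖Ti‖ * ‖(V x).starProjection (Tc w)‖ :=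
      Ti.le_opNorm _
    have h2 : ‖(V x).starProjection (Tc w)‖ ≤ ‖Tc w‖ :=
      Submodule.norm_starProjection_apply_le _ _
    have h3 : ‖Tc w‖ ≤ ‖Tc‖ * ‖w‖ := Tc.le_opNorm _
    have h4 : ‖Ti‖ * ‖(V x).starProjection (Tc w)‖ ≤ ‖Ti‖ * (‖Tc‖ * ‖w‖) :=
      mul_le_mul_of_nonneg_left (h2.trans h3) (norm_nonneg _)
    have h5 : ‖Ti‖ * ‖Tc‖ * ‖w‖ ≤ max 1 (‖Ti‖ * ‖Tc‖) * ‖w‖ :=
      mul_le_mul_of_nonneg_right (le_max_right _ _) (norm_nonneg _)
    show ‖Ti ((V x).starProjection (Tc w))‖ ≤ _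
    linarith
  · intro x w
    have h1 : (V x).starProjection (Tc w) ∈ V x := Submodule.starProjection_apply_mem _ _
    obtain ⟨v, hv, hv1⟩ := (Submodule.mem_map).1 h1
    have h2 : Ti ((V x).starProjection (Tc w)) = v := by
      rw [← hv1]
      exact T.symm_apply_apply v
    show Ti ((V x).starProjection (Tc w)) ∈ S.Vs x
    rw [h2]
    exact hv
  · intro x w hw
    have h1 : Tc w ∈ V x := Submodule.mem_map_of_mem hw
    have h2 : (V x).starProjection (Tc w) = Tc w := Submodule.starProjection_eq_self_iff.2 h1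
    show Ti ((V x).starProjection (Tc w)) = w
    rw [h2]
    exact T.symm_apply_apply w

/-- The projection is almost isometric on plaques. -/
theorem c6_bilip (S : HypSys X E) {M : ℝ} (Q : Prj S M) : ∃ ρ > 0,
    ∀ x y y', S.SRel ρ x y → S.SRel ρ x y' →
      3 / 4 * dist y y' ≤ ‖Q.P x (S.e y' - S.e y)‖ ∧
      ‖Q.P x (S.e y' - S.e y)‖ ≤ 5 / 4 * dist y y' := by
  have hM := Q.one_le
  obtain ⟨ρ, hρ, h⟩ := c6_almost S (1 / (8 * M)) (by positivity)
    (by rw [div_le_one (by positivity)]; linarith)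
  refine ⟨ρ, hρ, fun x y y' h1 h2 => ?_⟩
  obtain ⟨s, hs, hs1⟩ := h x y y' h1 h2
  have hd : dist y y' = ‖S.e y' - S.e y‖ := by rw [dist_comm, S.isom]
  have hd0 : 0 ≤ dist y y' := dist_nonneg
  have e2 : Q.P x (S.e y' - S.e y - s) = Q.P x (S.e y' - S.e y) - s := by
    rw [map_sub (Q.P x) (S.e y' - S.e y) s, Q.eq x s hs]
  have h5 := Q.le x (S.e y' - S.e y - s)
  have h6 : M * ‖S.e y' - S.e y - s‖ ≤ 1 / 8 * dist y y' := by
    calc M * ‖S.e y' - S.e y - s‖ ≤ M * (1 / (8 * M) * dist y y') :=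
          mul_le_mul_of_nonneg_left hs1 (by linarith)
      _ = 1 / 8 * dist y y' := by field_simp
  have h7 : ‖S.e y' - S.e y - s‖ ≤ M * ‖S.e y' - S.e y - s‖ := by
    nlinarith [norm_nonneg (S.e y' - S.e y - s)]
  constructor
  · have e1 : S.e y' - S.e y = Q.P x (S.e y' - S.e y) +
        ((S.e y' - S.e y - s) - Q.P x (S.e y' - S.e y - s)) := by
      rw [e2]
      abel
    have h3 : ‖S.e y' - S.e y‖ ≤ ‖Q.P x (S.e y' - S.e y)‖ +
        ‖(S.e y' - S.e y - s) - Q.P x (S.e y' - S.e y - s)‖ := by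
      conv_lhs => rw [e1]
      exact norm_add_le _ _
    have h4 := norm_sub_le (S.e y' - S.e y - s) (Q.P x (S.e y' - S.e y - s))
    rw [← hd] at h3
    linarith
  · have e1 : Q.P x (S.e y' - S.e y) = (S.e y' - S.e y) + (Q.P x (S.e y' - S.e y - s)
        - (S.e y' - S.e y - s)) := by
      rw [e2]
      abel
    have h3 := norm_add_le (S.e y' - S.e y) (Q.P x (S.e y' - S.e y - s)
        - (S.e y' - S.e y - s))
    have h4 := norm_sub_le (Q.P x (S.e y' - S.e y - s)) (S.e y' - S.e y - s)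
    rw [← e1, ← hd] at h3
    linarith

theorem c6_step (S : HypSys X E) {M : ℝ} (Q : Prj S M) {ε₀ : ℝ} (geo : Geo S ε₀) : ∃ r > 0, ∃ ρ > 0,
    ∀ x z v, S.SRel r x z → v ∈ S.Vs x → ‖v - Q.P x (S.e z - S.e x)‖ ≤ ρ →
      ∃ z', S.SRel (36 * S.K * ‖v - Q.P x (S.e z - S.e x)‖) z z' ∧
        ‖v - Q.P x (S.e z' - S.e x)‖ ≤ 1 / 4 * ‖v - Q.P x (S.e z - S.e x)‖ := by
  have hK := S.one_le_K
  have hM := Q.one_le
  have hM0 : 0 < M := by linarith
  obtain ⟨r3, hr3, A3⟩ := S.A3 (1 / (16 * M)) (by positivity)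
  obtain ⟨ρ, hρ, hA⟩ := c6_approxS S (1 / (16 * M)) (by positivity) ε₀ geo.pos
  have hη1 : 1 / (16 * M) ≤ 1 / 16 := by
    apply one_div_le_one_div_of_le (by norm_num)
    linarith
  have hηM : M * (1 / (16 * M)) = 1 / 16 := by field_simp
  refine ⟨r3 / 2, by positivity, ρ / 2, by positivity, fun x z v hxz hv hle => ?_⟩
  set w := v - Q.P x (S.e z - S.e x) with hw
  have hwm : w ∈ S.Vs x := Submodule.sub_mem _ hv (Q.mem x _)
  have hdist : dist x z < r3 := by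
    have := hxz.dist_le
    linarith
  obtain ⟨w', hw', hw1⟩ := A3 x z hdist w hwm
  have hn0 : 0 ≤ ‖w‖ := norm_nonneg _
  have hn : ‖w'‖ ≤ 2 * ‖w‖ := by
    have h1 := norm_sub_le w (w - w')
    rw [sub_sub_cancel] at h1
    have h2 : 1 / (16 * M) * ‖w‖ ≤ 1 / 16 * ‖w‖ := mul_le_mul_of_nonneg_right hη1 hn0
    linarith
  obtain ⟨z', h1, h2, h3⟩ := hA z w' hw' (by linarith)
  refine ⟨z', ?_, ?_⟩
  · apply (geo.SRel_dist h1).mono
    have : 18 * S.K * ‖w'‖ ≤ 18 * S.K * (2 * ‖w‖) :=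
      mul_le_mul_of_nonneg_left hn (by positivity)
    linarith
  · have e1 : v - Q.P x (S.e z' - S.e x) = Q.P x (w - (S.e z' - S.e z)) := by
      have e2 : S.e z' - S.e x = (S.e z - S.e x) + (S.e z' - S.e z) := by abel
      have e3 : Q.P x (w - (S.e z' - S.e z)) = w - Q.P x (S.e z' - S.e z) := by
        rw [map_sub (Q.P x) w (S.e z' - S.e z), Q.eq x w hwm]
      rw [e3, e2, map_add, hw]
      abel
    rw [e1]
    refine (Q.le x _).trans ?_
    have e2 : w - (S.e z' - S.e z) = (w - w') - (S.e z' - S.e z - w') := by abel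
    rw [e2]
    have h4 := norm_sub_le (w - w') (S.e z' - S.e z - w')
    have h5 : 1 / (16 * M) * ‖w'‖ ≤ 1 / (16 * M) * (2 * ‖w‖) :=
      mul_le_mul_of_nonneg_left hn (by positivity)
    have h6 : M * ‖w - w' - (S.e z' - S.e z - w')‖ ≤ M * (3 * (1 / (16 * M) * ‖w‖)) :=
      mul_le_mul_of_nonneg_left (by linarith) hM0.le
    have h7 : M * (3 * (1 / (16 * M) * ‖w‖)) = 3 / 16 * ‖w‖ := by
      rw [show M * (3 * (1 / (16 * M) * ‖w‖)) = 3 * (M * (1 / (16 * M))) * ‖w‖ by ring, hηM]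
      ring
    linarith

theorem c6_surj (S : HypSys X E) {M : ℝ} (Q : Prj S M) (ε : ℝ) (hε : 0 < ε) : ∃ ρ > 0,
    ∀ x, ∀ v ∈ S.Vs x, ‖v‖ ≤ ρ → ∃ z, S.SRel ε x z ∧ Q.P x (S.e z - S.e x) = v := by
  have hK := S.one_le_K
  have hM := Q.one_le
  have hM0 : 0 < M := by linarith
  obtain ⟨ε₀, geo⟩ := exists_geo S
  obtain ⟨r, hr, ρ, hρ, hstep⟩ := c6_step S Q geo
  set R := min ε r with hR
  have hR0 : 0 < R := lt_min hε hr
  refine ⟨min ρ (R / (54 * S.K)), lt_min hρ (by positivity), fun x v hv hvn => ?_⟩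
  have hv1 : ‖v‖ ≤ ρ := hvn.trans (min_le_left _ _)
  have hv2 : 54 * S.K * ‖v‖ ≤ R := by
    have := hvn.trans (min_le_right _ _)
    rw [le_div_iff₀ (by positivity)] at this
    linarith
  set T := 54 * S.K * ‖v‖ with hT
  have hT0 : 0 ≤ T := by positivity
  have hTε : T ≤ ε := hv2.trans (min_le_left _ _)
  have hTr : T ≤ r := hv2.trans (min_le_right _ _)
  let P : ℕ → X → Prop := fun k z => S.SRel (T * (1 - (1 / 4) ^ k)) x z ∧
    ‖v - Q.P x (S.e z - S.e x)‖ ≤ (1 / 4) ^ k * ‖v‖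
  have hURT : ∀ k z, P k z → S.SRel T x z := by
    intro k z hz
    apply hz.1.mono
    have h1 : (0 : ℝ) ≤ (1 / 4) ^ k := by positivity
    nlinarith
  have hst : ∀ (k : ℕ) (z : {z : X // P k z}), ∃ z' : {z : X // P (k + 1) z},
      dist z.1 z'.1 ≤ (36 * S.K * ‖v‖) * (1 / 4) ^ k := by
    intro k z
    have hz := z.2
    have h4k : (0 : ℝ) < (1 / 4) ^ k := by positivity
    have h4k1 : (1 / 4 : ℝ) ^ k ≤ 1 := pow_le_one₀ (by norm_num) (by norm_num)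
    have hle : ‖v - Q.P x (S.e z.1 - S.e x)‖ ≤ ρ := by
      refine hz.2.trans ?_
      have : (1 / 4 : ℝ) ^ k * ‖v‖ ≤ 1 * ‖v‖ := mul_le_mul_of_nonneg_right h4k1 (norm_nonneg _)
      linarith
    obtain ⟨z', h1, h3⟩ := hstep x z.1 v ((hURT k _ hz).mono hTr) hv hle
    have h4 : 36 * S.K * ‖v - Q.P x (S.e z.1 - S.e x)‖ ≤ 36 * S.K * ((1 / 4) ^ k * ‖v‖) :=
      mul_le_mul_of_nonneg_left hz.2 (by positivity)
    refine ⟨⟨z', ?_, ?_⟩, ?_⟩
    · apply (hz.1.trans h1).mono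
      have e1 : (1 / 4 : ℝ) ^ (k + 1) = (1 / 4) ^ k * (1 / 4) := pow_succ _ _
      rw [e1]
      have e2 : T * (1 - (1 / 4 : ℝ) ^ k * (1 / 4)) = T * (1 - (1 / 4 : ℝ) ^ k) +
          3 / 4 * (54 * (S.K * ((1 / 4 : ℝ) ^ k * ‖v‖))) := by rw [hT]; ring
      rw [e2]
      have : 0 ≤ S.K * ((1 / 4 : ℝ) ^ k * ‖v‖) := by positivity
      linarith
    · rw [pow_succ]
      calc ‖v - Q.P x (S.e z' - S.e x)‖ ≤ 1 / 4 * ‖v - Q.P x (S.e z.1 - S.e x)‖ := h3
        _ ≤ 1 / 4 * ((1 / 4) ^ k * ‖v‖) := mul_le_mul_of_nonneg_left hz.2 (by norm_num)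
        _ = _ := by ring
    · refine (h1.dist_le.trans h4).trans (le_of_eq ?_)
      ring
  choose G hG using hst
  have hP0 : P 0 x := by
    refine ⟨fun k => ?_, ?_⟩
    · rw [dist_self]; simp
    · rw [sub_self, map_zero, sub_zero, pow_zero, one_mul]
  let Z : (k : ℕ) → {z : X // P k z} := fun k => Nat.rec ⟨x, hP0⟩ (fun k z => G k z) k
  have hZ : ∀ k, dist (Z k).1 (Z (k + 1)).1 ≤ (36 * S.K * ‖v‖) * (1 / 4) ^ k := fun k =>
    hG k (Z k)
  have hcs : CauchySeq (fun k => (Z k).1) :=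
    cauchySeq_of_le_geometric (1 / 4) _ (by norm_num) hZ
  obtain ⟨z, hz⟩ := cauchySeq_tendsto_of_complete hcs
  have hxz : S.SRel T x z := by
    intro j
    have h1 : Tendsto (fun k => dist (S.g^[j] x) (S.g^[j] (Z k).1)) atTop
        (𝓝 (dist (S.g^[j] x) (S.g^[j] z))) :=
      tendsto_const_nhds.dist (((S.g.continuous.iterate j).tendsto _).comp hz)
    exact le_of_tendsto' h1 (fun k => hURT k _ (Z k).2 j)
  refine ⟨z, hxz.mono hTε, ?_⟩
  have hb : ∀ k, ‖Q.P x (S.e z - S.e x) - v‖ ≤ M * dist (Z k).1 z + (1 / 4) ^ k * ‖v‖ := by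
    intro k
    have hk := (Z k).2
    have e1 : Q.P x (S.e z - S.e x) - v = Q.P x (S.e z - S.e (Z k).1) -
        (v - Q.P x (S.e (Z k).1 - S.e x)) := by
      have e2 : S.e z - S.e x = (S.e z - S.e (Z k).1) + (S.e (Z k).1 - S.e x) := by abel
      rw [e2, map_add]
      abel
    rw [e1]
    have h5 := norm_sub_le (Q.P x (S.e z - S.e (Z k).1))
      (v - Q.P x (S.e (Z k).1 - S.e x))
    have h6 := hk.2
    have h7 := Q.le x (S.e z - S.e (Z k).1)
    have h8 : dist (Z k).1 z = ‖S.e z - S.e (Z k).1‖ := by rw [dist_comm, S.isom]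
    rw [h8]
    linarith
  have hl1 : Tendsto (fun k => M * dist (Z k).1 z + (1 / 4 : ℝ) ^ k * ‖v‖) atTop
      (𝓝 (M * 0 + 0 * ‖v‖)) := by
    apply Tendsto.add
    · have : Tendsto (fun k => dist (Z k).1 z) atTop (𝓝 (dist z z)) :=
        hz.dist tendsto_const_nhds
      rw [dist_self] at this
      exact this.const_mul M
    · apply Tendsto.mul_const
      exact tendsto_pow_atTop_nhds_zero_of_lt_one (by norm_num) (by norm_num)
  have hl2 : ‖Q.P x (S.e z - S.e x) - v‖ ≤ M * 0 + 0 * ‖v‖ := ge_of_tendsto' hl1 hb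
  have hl3 : ‖Q.P x (S.e z - S.e x) - v‖ ≤ 0 := by linarith
  exact sub_eq_zero.mp (norm_le_zero_iff.mp hl3)


end

end Pool.Agent.Q237.PI
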